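import Mathlib
import Pool.Agent.Lib.helper13.Lag

set_option autoImplicit false

namespace Pool.Agent.Results.MP_308f9e_co.Counter

open Polynomial Finset

section
variable {P : Type} [Fintype P] [DecidableEq P] [PartialOrder P] [OrderBot P] [DecidableLE P]

/-- The flag `f`-vector of `P` with a top adjoined: chains of elements of `P` other than the
bottom whose set of ranks is exactly `T`. -/
def flagF (ρ : P → ℕ) (T : Finset ℕ) : ℕ :=
  (univ.filter fun c : Finset P =>
    ⊥ ∉ c ∧ (∀ x ∈ c, ∀ y ∈ c, x ≤ y ∨ y ≤ x) ∧ c.image ρ = T).card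

/-- The flag `h`-vector. -/
def flagH (ρ : P → ℕ) (S : Finset ℕ) : ℤ :=
  ∑ T ∈ S.powerset, (-1) ^ (S \ T).card * (flagF ρ T : ℤ)

/-- The augmented Chow polynomial of `P` with a top adjoined, `P` of rank `n`. -/
noncomputable def chowAug (ρ : P → ℕ) (n : ℕ) : ℝ[X] :=
  ∑ S ∈ (Icc 1 n).powerset.filter (fun S => ∀ i ∈ S, i + 1 ∉ S),
    C (flagH ρ S : ℝ) * X ^ S.card * (1 + X) ^ (n + 1 - 2 * S.card)

theorem flagF_eq (ρ : P → ℕ) (h : ∀ x y, x ≤ y → ρ x = ρ y → x = y) (T : Finset ℕ) :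
    flagF ρ T = ((powersetCard T.card univ).filter fun c : Finset P =>
      ⊥ ∉ c ∧ (∀ x ∈ c, ∀ y ∈ c, x ≤ y ∨ y ≤ x) ∧ c.image ρ = T).card := by
  unfold flagF
  congr 1
  ext c
  simp only [mem_filter, mem_univ, true_and, mem_powersetCard, subset_univ, iff_and_self]
  rintro ⟨-, h1, rfl⟩
  refine (card_image_of_injOn fun x hx y hy e => ?_).symm
  rcases h1 x hx y hy with h2 | h2
  · exact h x y h2 e
  · exact (h y x h2 e.symm).symm
end

/-- The face poset of two disjoint triangles. -/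
abbrev Q : Type := {s : Finset (Fin 6) // s ⊆ {0, 1, 2} ∨ s ⊆ {3, 4, 5}}

instance : OrderBot Q where
  bot := ⟨∅, by simp⟩
  bot_le := fun a => empty_subset a.1

def rk (x : Q) : ℕ := x.1.card

theorem iso (m : Q) (f : Finset (Fin 3) → Q) (h1 : ∀ s t, f s ≤ f t ↔ s ≤ t) (h2 : ∀ s, f s ≤ m)
    (h3 : ∀ y, y ≤ m → ∃ s, f s = y) : Nonempty (Set.Iic m ≃o Finset (Fin 3)) :=
  ⟨(RelIso.ofSurjective (OrderEmbedding.ofMapLEIff (fun s => (⟨f s, h2 s⟩ : Set.Iic m)) h1)
    fun y => (h3 y.1 y.2).imp fun _ h => Subtype.ext h).symm⟩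

def f1 (s : Finset (Fin 3)) : Q := ⟨s.image (Fin.castLE (by norm_num)), by revert s; decide⟩
def f2 (s : Finset (Fin 3)) : Q := ⟨s.image (Fin.natAdd 3), by revert s; decide⟩

theorem simplicial (m : Q) (hm : IsMax m) : Nonempty (Set.Iic m ≃o Finset (Fin 3)) := by
  rcases m.2 with h | h
  · have e : m = ⟨{0, 1, 2}, by simp⟩ := le_antisymm h (hm h)
    subst e
    exact iso _ f1 (by decide +kernel) (by decide +kernel) (by decide +kernel)
  · have e : m = ⟨{3, 4, 5}, by simp⟩ := le_antisymm h (hm h)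
    subst e
    exact iso _ f2 (by decide +kernel) (by decide +kernel) (by decide +kernel)

theorem rk_inj : ∀ x y : Q, x ≤ y → rk x = rk y → x = y :=
  fun _ _ h e => Subtype.ext (eq_of_subset_of_card_le h e.ge)

theorem cov : ∀ x y : Q, x < y → rk y = rk x + 1 ∨ ∃ z, x < z ∧ z < y := by decide +kernel

theorem a0 : flagF rk ∅ = 1 := by rw [flagF_eq _ rk_inj]; decide +kernel
theorem a1 : flagF rk {1} = 6 := by rw [flagF_eq _ rk_inj]; decide +kernel
theorem a2 : flagF rk {2} = 6 := by rw [flagF_eq _ rk_inj]; decide +kernel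
theorem a3 : flagF rk {3} = 2 := by rw [flagF_eq _ rk_inj]; decide +kernel
theorem a13 : flagF rk {1, 3} = 6 := by rw [flagF_eq _ rk_inj]; decide +kernel

theorem b1 (i : ℕ) : flagH rk {i} = flagF rk {i} - 1 := by
  rw [flagH, show ({i} : Finset ℕ).powerset = {∅, {i}} by ext; simp [subset_singleton_iff],
    sum_pair (singleton_ne_empty i).symm, a0]
  simp; ring

theorem b13 : flagH rk {1, 3} = -1 := by
  rw [flagH, show ({1, 3} : Finset ℕ).powerset = {∅, {1}, {3}, {1, 3}} by decide,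
    sum_insert (by decide), sum_insert (by decide), sum_pair (by decide), a0, a1, a3, a13]
  decide

theorem chow : chowAug rk 3 = (1 + X) ^ 4 + 11 * X * (1 + X) ^ 2 - X ^ 2 := by
  rw [chowAug, show (Icc 1 3).powerset.filter (fun S => ∀ i ∈ S, i + 1 ∉ S) =
    {∅, {1}, {2}, {3}, {1, 3}} by decide, sum_insert (by decide), sum_insert (by decide),
    sum_insert (by decide), sum_pair (by decide), b1, b1, b1, b13, a1, a2, a3]
  simp [flagH, a0]
  norm_num [map_ofNat]
  ring

theorem result : ∃ (P : Type) (_ : Fintype P) (_ : DecidableEq P) (_ : PartialOrder P)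
    (_ : OrderBot P) (_ : DecidableLE P) (n : ℕ) (ρ : P → ℕ), 1 ≤ n ∧
    (∀ m : P, IsMax m → Nonempty (Set.Iic m ≃o Finset (Fin n))) ∧
    ρ ⊥ = 0 ∧ (∀ x y, x ⋖ y → ρ y = ρ x + 1) ∧
    ∃ z : ℂ, aeval z (chowAug ρ n) = 0 ∧ z.im ≠ 0 := by
  refine ⟨Q, inferInstance, inferInstance, inferInstance, inferInstance, inferInstance, 3, rk,
    by norm_num, simplicial, rfl, fun x y h => (cov x y h.1).resolve_right ?_, ?_⟩
  · rintro ⟨z, h1, h2⟩
    exact h.2 h1 h2
  · apply H13Lag.exists_nonreal _ (-1)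
    rw [chow]
    simp [derivative_mul, derivative_pow]
    norm_num

end Pool.Agent.Results.MP_308f9e_co.Counter
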